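import Pool.Agent.Helper83.CK.St

namespace Pool.Agent.Helper82.CK
open Pool.Agent.Helper83.CK Cardinal Set
universe u

theorem mF : StF.{u} := by
  intro α _ _ X hX
  have hlt : ∀ a ∈ fst X, ∀ b ∈ X \ fst X, a < b := by
    intro a ha b hb
    by_contra h
    push Not at h
    exact hb.2 ⟨hb.1, ha.2.subset (fun c hc => ⟨hc.1, lt_of_lt_of_le hc.2 h⟩)⟩
  have hinf : (fst X).Infinite := by
    intro hfin
    have hne : (X \ fst X).Nonempty := (hX.diff hfin).nonempty
    obtain ⟨a, ha, hmin⟩ := WellFounded.has_min (wellFounded_lt) (X \ fst X) hne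
    exact ha.2 ⟨ha.1, hfin.subset (fun c hc => by
      by_contra hcn
      exact hmin c ⟨hc.1, hcn⟩ hc.2)⟩
  have hstep : ∀ a ∈ fst X, ∀ b ∈ fst X, a < b →
      (X ∩ Iio a).ncard < (X ∩ Iio b).ncard := by
    intro a ha b hb h
    apply Set.ncard_lt_ncard _ hb.2
    refine ⟨fun c hc => ⟨hc.1, lt_trans hc.2 h⟩, fun hs => ?_⟩
    exact lt_irrefl a (hs ⟨ha.1, h⟩).2
  have hcount : (fst X).Countable := by
    have hinj : Set.InjOn (fun a => (X ∩ Iio a).ncard) (fst X) := by
      intro a ha b hb hab
      have hab' : (X ∩ Iio a).ncard = (X ∩ Iio b).ncard := hab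
      by_contra hne
      rcases lt_or_gt_of_ne hne with h | h
      · have := hstep a ha b hb h
        omega
      · have := hstep b hb a ha h
        omega
    exact Set.countable_of_injective_of_countable_image hinj (Set.to_countable _)
  refine ⟨hinf, hcount, ?_⟩
  intro v hv s hs hvi
  have hd : ∀ a ∈ v, a ∉ s := fun a ha has => (hs has).2 (hv ha)
  have hsubX : v ∪ s ⊆ X := by
    rintro a (ha | ha)
    · exact (hv ha).1
    · exact (hs ha).1
  constructor
  · ext a
    constructor
    · rintro ⟨ha, hfin⟩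
      rcases ha with ha | ha
      · exact ha
      · exfalso
        exact hvi (hfin.subset (fun c hc => ⟨Or.inl hc, hlt c (hv hc) a (hs ha)⟩))
    · intro ha
      exact ⟨Or.inl ha, (hv ha).2.subset (fun c hc => ⟨hsubX hc.1, hc.2⟩)⟩
  · ext a
    constructor
    · rintro ⟨ha | ha, hna⟩
      · exact absurd ha hna
      · exact ha
    · intro ha
      exact ⟨Or.inr ha, fun hav => hd a hav ha⟩

end Pool.Agent.Helper82.CK
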