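import Pool.Agent.Helper83.CK.St

namespace Pool.Agent.Helper82.CK
open Pool.Agent.Helper83.CK Cardinal Set
universe u

theorem mR : StB → StR.{u} := by
  rintro ⟨B, hB⟩ α
  classical
  let C := {a : Set α // a.Countable ∧ a.Infinite}
  have wf : WellFounded (WellOrderingRel : C → C → Prop) := WellOrderingRel.isWellOrder.wf
  have he : ∀ a : C, ∃ f : α → ℕ, Set.InjOn f a.1 :=
    fun a => Set.countable_iff_exists_injOn.1 a.2.1
  choose e he using he
  let S : Set α → Set C := fun v => {a | v ⊆ a.1}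
  let r : Set α → (ℕ → Bool) := fun v =>
    if h : (S v).Nonempty then B (e (wf.min (S v) h) '' v) else fun _ => false
  refine ⟨r, ?_⟩
  intro w hwc hwi y
  let T : Set C := {a | ∃ v ⊆ w, v.Infinite ∧ ∃ h : (S v).Nonempty, wf.min (S v) h = a}
  have hne : ∀ v ⊆ w, (S v).Nonempty := fun v hv => ⟨⟨w, hwc, hwi⟩, hv⟩
  have hT : T.Nonempty := ⟨_, w, subset_rfl, hwi, hne w subset_rfl, rfl⟩
  obtain ⟨w', hw'w, hw'i, hw'ne, hmin⟩ := wf.min_mem T hT
  have hw'a : w' ⊆ (wf.min T hT).1 := by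
    have := wf.min_mem (S w') hw'ne
    rw [hmin] at this
    exact this
  have key : ∀ v ⊆ w', v.Infinite → ∀ h : (S v).Nonempty, wf.min (S v) h = wf.min T hT := by
    intro v hv hvi h
    have h1 : ¬ WellOrderingRel (wf.min T hT) (wf.min (S v) h) :=
      wf.not_lt_min (S v) (show wf.min T hT ∈ S v from hv.trans hw'a)
    have h2 : ¬ WellOrderingRel (wf.min (S v) h) (wf.min T hT) :=
      wf.not_lt_min T ⟨v, hv.trans hw'w, hvi, h, rfl⟩
    rcases trichotomous_of (WellOrderingRel : C → C → Prop) (wf.min T hT) (wf.min (S v) h)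
      with h3 | h3 | h3
    · exact absurd h3 h1
    · exact h3.symm
    · exact absurd h3 h2
  obtain ⟨v0, hv0, hv0i, hv0y⟩ := hB (e (wf.min T hT) '' w')
    (hw'i.image ((he (wf.min T hT)).mono hw'a)) y
  have him : e (wf.min T hT) '' {b | b ∈ w' ∧ e (wf.min T hT) b ∈ v0} = v0 := by
    ext n
    constructor
    · rintro ⟨b, hb, rfl⟩
      exact hb.2
    · intro hn
      obtain ⟨b, hb, rfl⟩ := hv0 hn
      exact ⟨b, ⟨hb, hn⟩, rfl⟩
  have hvinf : {b | b ∈ w' ∧ e (wf.min T hT) b ∈ v0}.Infinite := by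
    intro hfin
    have := hfin.image (e (wf.min T hT))
    rw [him] at this
    exact hv0i this
  have hsub' : {b | b ∈ w' ∧ e (wf.min T hT) b ∈ v0} ⊆ w' := fun b hb => hb.1
  have hn : (S {b | b ∈ w' ∧ e (wf.min T hT) b ∈ v0}).Nonempty := hne _ (hsub'.trans hw'w)
  refine ⟨{b | b ∈ w' ∧ e (wf.min T hT) b ∈ v0}, hsub'.trans hw'w, hvinf, ?_⟩
  show (if h : (S {b | b ∈ w' ∧ e (wf.min T hT) b ∈ v0}).Nonempty then
    B (e (wf.min (S {b | b ∈ w' ∧ e (wf.min T hT) b ∈ v0}) h) ''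
      {b | b ∈ w' ∧ e (wf.min T hT) b ∈ v0}) else fun _ => false) = y
  rw [dif_pos hn, key _ hsub' hvinf hn, him]
  exact hv0y

end Pool.Agent.Helper82.CK
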